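import Pool.Agent.Helper99.RZ.Kos

/-!
# Project RZ (MP_77656e_ag): powers of the hyperplane bundle are among the line bundles
-/

set_option autoImplicit false

open MvPolynomial

namespace Pool.Agent.Helper99.RZ

open Pool.Agent.Helper17.RZ

universe u

noncomputable section

variable (k : Type u) [Field k]

theorem sb_lt (e : Fin 4 → Bool × Bool) (s : Fin 4) (c : Fin 5) :
    sb k e (lt k s c) = ((lsg (e s) c : ℤ) : SS k) * lt k s c := by
  rcases h : e s with ⟨a, b⟩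
  fin_cases c <;> cases a <;> cases b <;>
    simp [lt, lsg, sb_X, h] <;> ring

theorem sb_cs (e : Fin 4 → Bool × Bool) (s : Fin 4) (c : Fin 5) : sb k e (cs k s c) = cs k s c := by
  have h0 : lsg (e s) 0 = 1 := by
    rcases e s with ⟨a, b⟩
    cases a <;> cases b <;> rfl
  have h1 : lsg (e s) 1 = 1 := by
    rcases e s with ⟨a, b⟩
    cases a <;> cases b <;> rfl
  unfold cs
  split
  · rw [sb_lt, h1]; simp
  · rw [sb_lt, h0]; simp

/-- the quotient of a letter by the form of the same chart -/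
def rr (s : Fin 4) (c : Fin 5) : LL k := al k (lt k s c) / al k (cs k s c)

theorem cs_hom (s : Fin 4) (c : Fin 5) : IsWeightedHomogeneous wt (cs k s c) (Pi.single s 4) := by
  unfold cs
  split <;> exact lt_hom k s _

theorem rr_HD (s : Fin 4) (c : Fin 5) : rr k s c ∈ HD k (fun _ => 0) :=
  ⟨lt k s c, cs k s c, Pi.single s 4, Pi.single s 4, cs_ne_zero k s c, lt_hom k s c, cs_hom k s c,
    fun _ => sub_self _, rfl⟩

theorem rr_inv_HD (s : Fin 4) (c : Fin 5) : (rr k s c)⁻¹ ∈ HD k (fun _ => 0) := by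
  rw [rr, inv_div]
  exact ⟨cs k s c, lt k s c, Pi.single s 4, Pi.single s 4, lt_ne_zero k s c, cs_hom k s c, lt_hom k s c,
    fun _ => sub_self _, rfl⟩

theorem rr_Dn (s : Fin 4) (c : Fin 5) {h : SS k} (hd : lt k s c ∣ h) : rr k s c ∈ Dn k h := by
  rw [rr, div_eq_mul_inv]
  exact (Dn k h).mul_mem (Dn_al k h _) (cs_inv k s c hd)

theorem rr_inv_Dn (s : Fin 4) (c : Fin 5) {h : SS k} (hd : lt k s c ∣ h) : (rr k s c)⁻¹ ∈ Dn k h := by
  rw [rr, inv_div, div_eq_mul_inv]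
  exact (Dn k h).mul_mem (Dn_al k h _) (Dn_inv k (lt_ne_zero k s c) hd)

theorem ga_rr (a s : Fin 4) (c : Fin 5) : ga k a (rr k s c) = ((lsg (code a s) c : ℤ) : LL k) * rr k s c := by
  rw [rr, map_div₀]
  have e1 := ga_algebraMap k a (lt k s c)
  have e2 := ga_algebraMap k a (cs k s c)
  rw [sb_lt] at e1
  rw [sb_cs] at e2
  rw [e1, e2, map_mul, map_intCast, mul_div_assoc]

theorem HD0_prod (f : Fin 4 → LL k) (hf : ∀ s, f s ∈ HD k (fun _ => 0)) :
    ∏ s, f s ∈ HD k (fun _ => 0) := by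
  refine Finset.prod_induction f (fun x => x ∈ HD k (fun _ => 0)) ?_ HD_one fun s _ => hf s
  intro x y hx hy
  have := HD_mul hx hy
  simpa using this

theorem Dn_prod (h : SS k) (f : Fin 4 → LL k) (hf : ∀ s, f s ∈ Dn k h) : ∏ s, f s ∈ Dn k h :=
  (Dn k h).prod_mem fun s _ => hf s

/-- the unit comparing the two generators -/
def qq (w : GW) : K0 k := aa k w / uu k (fun _ => 1) w

theorem qq_ne_zero (w : GW) : qq k w ≠ 0 := div_ne_zero (aa_ne_zero k w) (uu_ne_zero k _ w)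

theorem coe_prod (f : Fin 4 → K0 k) : ((∏ s, f s : K0 k) : LL k) = ∏ s, (f s : LL k) :=
  map_prod (algebraMap (K0 k) (LL k)) f Finset.univ

theorem qq_val (w : GW) : ((qq k w : K0 k) : LL k) = ∏ s, rr k s (w.1 s) := by
  have e1 : ((uu k (fun _ => 1) w : K0 k) : LL k) =
      ∏ s, (al k (cs k s (w.1 s)) / al k (lt k s 0)) := by
    unfold uu
    rw [coe_prod]
    refine Finset.prod_congr rfl fun s _ => ?_
    have h0 := al_ne_zero k (lt_ne_zero k s 0)
    unfold cs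
    split
    · rw [zpow_one, bet_val]
    · rw [div_self h0]; rfl
  have e2 : ((aa k w : K0 k) : LL k) = ∏ s, (al k (lt k s (w.1 s)) / al k (lt k s 0)) := by
    change al k (fw k w.1) / al k (fw k w0.1) = _
    unfold fw
    rw [Finset.prod_div_distrib]
    unfold al
    rw [map_prod, map_prod]
    rfl
  change ((aa k w : K0 k) : LL k) / ((uu k (fun _ => 1) w : K0 k) : LL k) = _
  rw [e1, e2, ← Finset.prod_div_distrib]
  refine Finset.prod_congr rfl fun s _ => ?_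
  have h0 := al_ne_zero k (lt_ne_zero k s 0)
  have h1 := al_ne_zero k (cs_ne_zero k s (w.1 s))
  unfold rr
  field_simp

theorem ga_qq (a : Fin 4) (w : GW) : ga k a ((qq k w : K0 k) : LL k) = ((qq k w : K0 k) : LL k) := by
  rw [qq_val, map_prod]
  simp only [ga_rr]
  rw [Finset.prod_mul_distrib]
  have h := w.2 a
  have e : ∏ s, ((lsg (code a s) (w.1 s) : ℤ) : LL k) = 1 := by
    have := congrArg (fun z : ℤ => (z : LL k)) h
    simpa using this
  rw [e, one_mul]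

theorem qq_mem (hI : InvThm.{u}) (h2 : (2 : k) ≠ 0) (w : GW) : qq k w ∈ (ZZ k).A {w} := by
  have hd : ∀ s, lt k s (w.1 s) ∣ fs k {w} := fun s => lt_dvd_fs k s (Finset.mem_singleton_self w)
  obtain ⟨y, hy, hyq⟩ := (hI k h2 {w} (Finset.singleton_nonempty w) ((qq k w : K0 k) : LL k)).mp
    ⟨by rw [qq_val]; exact HD0_prod k _ fun s => rr_HD k s _,
      by rw [qq_val]; exact Dn_prod k _ _ fun s => rr_Dn k s _ (hd s), fun a => ga_qq k a w⟩
  have : y = qq k w := Subtype.ext hyq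
  rw [← this]; exact hy

theorem qq_inv_mem (hI : InvThm.{u}) (h2 : (2 : k) ≠ 0) (w : GW) : (qq k w)⁻¹ ∈ (ZZ k).A {w} := by
  have hd : ∀ s, lt k s (w.1 s) ∣ fs k {w} := fun s => lt_dvd_fs k s (Finset.mem_singleton_self w)
  have hv : (((qq k w)⁻¹ : K0 k) : LL k) = ∏ s, (rr k s (w.1 s))⁻¹ := by
    change (((qq k w : K0 k) : LL k))⁻¹ = _
    rw [qq_val, Finset.prod_inv_distrib]
  obtain ⟨y, hy, hyq⟩ := (hI k h2 {w} (Finset.singleton_nonempty w) (((qq k w)⁻¹ : K0 k) : LL k)).mp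
    ⟨by rw [hv]; exact HD0_prod k _ fun s => rr_inv_HD k s _,
      by rw [hv]; exact Dn_prod k _ _ fun s => rr_inv_Dn k s _ (hd s), fun a => by
        change ga k a (((qq k w : K0 k) : LL k))⁻¹ = (((qq k w : K0 k) : LL k))⁻¹
        rw [map_inv₀, ga_qq]⟩
  have : y = (qq k w)⁻¹ := Subtype.ext hyq
  rw [← this]; exact hy

theorem uu_neg (N : ℕ) (w : GW) : uu k (fun _ => -(N : ℤ)) w = ((uu k (fun _ => 1) w) ^ N)⁻¹ := by
  unfold uu
  rw [← Finset.prod_pow, ← Finset.prod_inv_distrib]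
  refine Finset.prod_congr rfl fun s _ => ?_
  split
  · rw [zpow_neg, zpow_natCast, zpow_one]
  · simp

/-- lattices of lines given by functions differing by units coincide -/
theorem lineLat_le (Z : ProjVar k (K0 k)) {ι : Type} (u v : ι → Z.I → K0 k) (hu : ∀ e i, u e i ≠ 0)
    (h : ∀ e i, u e i / v e i ∈ Z.A {i}) (σ : Finset Z.I) (x : ι → K0 k) (hx : x ∈ Z.lineLat u σ) :
    x ∈ Z.lineLat v σ := by
  intro e i hi'
  have h1 : x e / v e i = (x e / u e i) * (u e i / v e i) := by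
    have := hu e i
    field_simp
  rw [h1]
  refine (Z.A σ).mul_mem (hx e i hi') (Z.A_mono ?_ (h e i))
  intro j hj
  rw [Finset.mem_singleton] at hj
  rw [hj]; exact hi'

/-- powers of the hyperplane bundle are among the line bundles -/
theorem hypLine : InvThm.{u} → IsoRetr.{u} → HypLine.{u} := by
  intro hI hR k _ h2 hU N R
  have e1 : ∀ w : GW, ((aa k w ^ N)⁻¹ : K0 k) / uu k (fun _ => -(N : ℤ)) w = ((qq k w)⁻¹) ^ N := by
    intro w
    have ha := aa_ne_zero k w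
    have hb := uu_ne_zero k (fun _ => 1) w
    rw [uu_neg, qq, inv_div, div_pow]
    field_simp
  have e2 : ∀ w : GW, uu k (fun _ => -(N : ℤ)) w / ((aa k w ^ N)⁻¹ : K0 k) = (qq k w) ^ N := by
    intro w
    have ha := aa_ne_zero k w
    have hb := uu_ne_zero k (fun _ => 1) w
    rw [uu_neg, qq, div_pow]
    field_simp
  refine hR k (K0 k) (ZZ k) (ZL k hU (Fin R) (fun _ _ => -(N : ℤ))) ((ZZ k).ON N R)
    (LinearMap.id : (Fin R → K0 k) →ₗ[K0 k] (Fin R → K0 k))
    (LinearMap.id : (Fin R → K0 k) →ₗ[K0 k] (Fin R → K0 k)) ?_ ?_ ?_ ?_ ?_ ?_ ?_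
  · intro i
    change (LinearMap.id : (Fin R → K0 k) →ₗ[K0 k] (Fin R → K0 k)) ∘ₗ (if i = 0 then LinearMap.id else 0) =
      (if i + 0 = 0 then LinearMap.id else 0) ∘ₗ (LinearMap.id : (Fin R → K0 k) →ₗ[K0 k] (Fin R → K0 k))
    rw [add_zero]
    split <;> simp
  · intro i
    change (LinearMap.id : (Fin R → K0 k) →ₗ[K0 k] (Fin R → K0 k)) ∘ₗ (if i = 0 then LinearMap.id else 0) =
      (if i + 0 = 0 then LinearMap.id else 0) ∘ₗ (LinearMap.id : (Fin R → K0 k) →ₗ[K0 k] (Fin R → K0 k))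
    rw [add_zero]
    split <;> simp
  · change (LinearMap.id : (Fin R → K0 k) →ₗ[K0 k] (Fin R → K0 k)) ∘ₗ 0 = 0 ∘ₗ LinearMap.id
    simp
  · change (LinearMap.id : (Fin R → K0 k) →ₗ[K0 k] (Fin R → K0 k)) ∘ₗ 0 = 0 ∘ₗ LinearMap.id
    simp
  · intro σ hσ y hy
    refine lineLat_le k (ZZ k) (fun _ w => (aa k w ^ N)⁻¹) (fun _ => uu k (fun _ => -(N : ℤ)))
      (fun _ w => inv_ne_zero (pow_ne_zero N (aa_ne_zero k w))) ?_ σ y hy
    have key : ∀ w : GW, ((aa k w ^ N)⁻¹ : K0 k) / uu k (fun _ => -(N : ℤ)) w ∈ (ZZ k).A {w} := by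
      intro w
      rw [e1]
      exact ((ZZ k).A {w}).pow_mem (qq_inv_mem k hI h2 w) N
    exact fun _ w => key w
  · intro σ hσ y hy
    refine lineLat_le k (ZZ k) (fun _ => uu k (fun _ => -(N : ℤ))) (fun _ w => (aa k w ^ N)⁻¹)
      (fun _ w => uu_ne_zero k _ w) ?_ σ y hy
    have key : ∀ w : GW, uu k (fun _ => -(N : ℤ)) w / ((aa k w ^ N)⁻¹ : K0 k) ∈ (ZZ k).A {w} := by
      intro w
      rw [e2]
      exact ((ZZ k).A {w}).pow_mem (qq_mem k hI h2 w) N
    exact fun _ w => key w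
  · change (LinearMap.id : (Fin R → K0 k) →ₗ[K0 k] (Fin R → K0 k)) ∘ₗ LinearMap.id = LinearMap.id
    simp

end

end Pool.Agent.Helper99.RZ
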