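import Pool.Agent.Helper17.RZ.St4

/-!
# Project RZ (MP_77656e_ag): the line bundles are in the thick closure of the generator
-/

set_option autoImplicit false

open MvPolynomial

namespace Pool.Agent.Helper99.RZ

open Pool.Agent.Helper17.RZ

universe u

noncomputable section

variable (k : Type u) [Field k]

theorem al_HD {P : SS k} {e : Fin 4 → ℕ} (h : IsWeightedHomogeneous wt P e) :
    al k P ∈ HD k (fun s => (e s : ℤ)) :=
  ⟨P, 1, e, 0, one_ne_zero, h, isWeightedHomogeneous_one k wt, fun s => by simp, by simp⟩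

theorem al_inv_HD {P : SS k} {e : Fin 4 → ℕ} (hP : P ≠ 0) (h : IsWeightedHomogeneous wt P e) :
    (al k P)⁻¹ ∈ HD k (fun s => -(e s : ℤ)) :=
  ⟨1, P, 0, e, hP, isWeightedHomogeneous_one k wt, h, fun s => by simp, by simp⟩

theorem Dn_al (h P : SS k) : al k P ∈ Dn k h := ⟨0, P, by simp⟩

theorem Dn_inv {h P : SS k} (hP : P ≠ 0) (hd : P ∣ h) : (al k P)⁻¹ ∈ Dn k h := by
  obtain ⟨c, rfl⟩ := hd
  refine ⟨1, c, ?_⟩
  rw [pow_one, map_mul, ← mul_assoc, inv_mul_cancel₀ (al_ne_zero k hP), one_mul]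

theorem lt_hom (s : Fin 4) (c : Fin 5) : IsWeightedHomogeneous wt (lt k s c) (Pi.single s 4) := by
  have hx : IsWeightedHomogeneous wt (X (s, false) : SS k) (Pi.single s 1) :=
    isWeightedHomogeneous_X k wt (s, false)
  have hy : IsWeightedHomogeneous wt (X (s, true) : SS k) (Pi.single s 1) :=
    isWeightedHomogeneous_X k wt (s, true)
  have hx2 : IsWeightedHomogeneous wt (X (s, false) ^ 2 : SS k) (Pi.single s 2) := by
    have := hx.pow 2
    have e : (2 • Pi.single s 1 : Fin 4 → ℕ) = Pi.single s 2 := by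
      funext t; by_cases h : t = s
      · subst h; simp
      · simp [Pi.single_eq_of_ne h]
    rwa [e] at this
  have hy2 : IsWeightedHomogeneous wt (X (s, true) ^ 2 : SS k) (Pi.single s 2) := by
    have := hy.pow 2
    have e : (2 • Pi.single s 1 : Fin 4 → ℕ) = Pi.single s 2 := by
      funext t; by_cases h : t = s
      · subst h; simp
      · simp [Pi.single_eq_of_ne h]
    rwa [e] at this
  have hxy : IsWeightedHomogeneous wt (X (s, false) * X (s, true) : SS k) (Pi.single s 2) := by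
    have := hx.mul hy
    rwa [← Pi.single_add] at this
  have hp : IsWeightedHomogeneous wt (X (s, false) ^ 2 + X (s, true) ^ 2 : SS k) (Pi.single s 2) :=
    (weightedHomogeneousSubmodule k wt _).add_mem hx2 hy2
  have hm : IsWeightedHomogeneous wt (X (s, false) ^ 2 - X (s, true) ^ 2 : SS k) (Pi.single s 2) :=
    (weightedHomogeneousSubmodule k wt _).sub_mem hx2 hy2
  have mul2 : ∀ P Q : SS k, IsWeightedHomogeneous wt P (Pi.single s 2) →
      IsWeightedHomogeneous wt Q (Pi.single s 2) → IsWeightedHomogeneous wt (P * Q) (Pi.single s 4) := by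
    intro P Q h1 h2
    have := h1.mul h2
    rwa [← Pi.single_add] at this
  fin_cases c
  · change IsWeightedHomogeneous wt ((X (s, false) ^ 2 + X (s, true) ^ 2) ^ 2 : SS k) _
    rw [pow_two (X (s, false) ^ 2 + X (s, true) ^ 2 : SS k)]
    exact mul2 _ _ hp hp
  · exact mul2 _ _ hx2 hy2
  · exact mul2 _ _ hp hxy
  · exact mul2 _ _ hp hm
  · exact mul2 _ _ hxy hm

theorem lt_dvd_fs (s : Fin 4) {σ : Finset GW} {w : GW} (hw : w ∈ σ) : lt k s (w.1 s) ∣ fs k σ :=
  dvd_trans (Finset.dvd_prod_of_mem (fun s => lt k s (w.1 s)) (Finset.mem_univ s))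
    (Finset.dvd_prod_of_mem (fun w : GW => fw k w.1) hw)

theorem inv_of_sq {h P Q R : SS k} (hP : P ≠ 0) (hR : R ≠ 0) (hd : R ∣ h) (e : R ^ 2 = P * Q) :
    (al k P)⁻¹ ∈ Dn k h := by
  have h1 : (al k P)⁻¹ = al k Q * ((al k R)⁻¹ * (al k R)⁻¹) := by
    have e' : al k R ^ 2 = al k P * al k Q := by rw [← map_pow, e, map_mul]
    have hR' := al_ne_zero k hR
    have hP' := al_ne_zero k hP
    field_simp
    linear_combination e'
  rw [h1]
  exact (Dn k h).mul_mem (Dn_al k h Q) ((Dn k h).mul_mem (Dn_inv k hR hd) (Dn_inv k hR hd))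

/-- the letters `1, 4` are those where the second form `b_s` is invertible -/
def isB (c : Fin 5) : Prop := c = 1 ∨ c = 4

instance (c : Fin 5) : Decidable (isB c) := by unfold isB; infer_instance

/-- the form invertible where the letter is -/
def cs (s : Fin 4) (c : Fin 5) : SS k := if c = 1 ∨ c = 4 then lt k s 1 else lt k s 0

theorem cs_ne_zero (s : Fin 4) (c : Fin 5) : cs k s c ≠ 0 := by
  unfold cs; split <;> exact lt_ne_zero k s _

theorem cs_inv (s : Fin 4) (c : Fin 5) {h : SS k} (hd : lt k s c ∣ h) : (al k (cs k s c))⁻¹ ∈ Dn k h := by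
  fin_cases c
  · exact Dn_inv k (lt_ne_zero k s 0) hd
  · exact Dn_inv k (lt_ne_zero k s 1) hd
  · refine inv_of_sq k (Q := lt k s 1) (lt_ne_zero k s 0) (lt_ne_zero k s 2) hd ?_
    change ((X (s, false) ^ 2 + X (s, true) ^ 2) * (X (s, false) * X (s, true)) : SS k) ^ 2 =
      (X (s, false) ^ 2 + X (s, true) ^ 2) ^ 2 * (X (s, false) ^ 2 * X (s, true) ^ 2)
    ring
  · refine inv_of_sq k (Q := lt k s 0 - 4 * lt k s 1) (lt_ne_zero k s 0) (lt_ne_zero k s 3) hd ?_
    change ((X (s, false) ^ 2 + X (s, true) ^ 2) * (X (s, false) ^ 2 - X (s, true) ^ 2) : SS k) ^ 2 =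
      (X (s, false) ^ 2 + X (s, true) ^ 2) ^ 2 * ((X (s, false) ^ 2 + X (s, true) ^ 2) ^ 2 -
        4 * (X (s, false) ^ 2 * X (s, true) ^ 2))
    ring
  · refine inv_of_sq k (Q := lt k s 0 - 4 * lt k s 1) (lt_ne_zero k s 1) (lt_ne_zero k s 4) hd ?_
    change (X (s, false) * X (s, true) * (X (s, false) ^ 2 - X (s, true) ^ 2) : SS k) ^ 2 =
      (X (s, false) ^ 2 * X (s, true) ^ 2) * ((X (s, false) ^ 2 + X (s, true) ^ 2) ^ 2 -
        4 * (X (s, false) ^ 2 * X (s, true) ^ 2))
    ring

theorem ab_inv (s : Fin 4) {σ : Finset GW} (hσ : σ.Nonempty) :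
    (al k (lt k s 0))⁻¹ ∈ Dn k (fs k σ) ∨ (al k (lt k s 1))⁻¹ ∈ Dn k (fs k σ) := by
  obtain ⟨w, hw⟩ := hσ
  have h := cs_inv k s (w.1 s) (lt_dvd_fs k s hw)
  unfold cs at h
  split at h
  · exact Or.inr h
  · exact Or.inl h

/-- homogeneous elements with given denominators -/
def HDn (h : SS k) (d : Fin 4 → ℤ) (x : LL k) : Prop := x ∈ HD k (fun s => 4 * d s) ∧ x ∈ Dn k h

theorem HDn_lt (h : SS k) (d : Fin 4 → ℤ) (s : Fin 4) (n m : ℤ) (hm : m = n + 1) (c : Fin 5) (x : LL k)
    (hx : HDn k h (Function.update d s n) x) :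
    HDn k h (Function.update d s m) (x * al k (lt k s c)) := by
  subst hm
  refine ⟨?_, (Dn k h).mul_mem hx.2 (Dn_al k h _)⟩
  have h1 := HD_mul hx.1 (al_HD k (lt_hom k s c))
  convert h1 using 2
  funext t
  by_cases ht : t = s
  · subst ht; simp; ring
  · simp [Function.update_of_ne ht, Pi.single_eq_of_ne ht]

theorem HDn_inv (h : SS k) (d : Fin 4 → ℤ) (s : Fin 4) (n m : ℤ) (hm : n = m + 1) (c : Fin 5) (x : LL k)
    (hc : (al k (lt k s c))⁻¹ ∈ Dn k h) (hx : HDn k h (Function.update d s n) x) :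
    HDn k h (Function.update d s m) (x * (al k (lt k s c))⁻¹) := by
  subst hm
  refine ⟨?_, (Dn k h).mul_mem hx.2 hc⟩
  have h1 := HD_mul hx.1 (al_inv_HD k (lt_ne_zero k s c) (lt_hom k s c))
  convert h1 using 2
  funext t
  by_cases ht : t = s
  · subst ht; simp; ring
  · simp [Function.update_of_ne ht, Pi.single_eq_of_ne ht]

theorem HDn_neg {h : SS k} {d : Fin 4 → ℤ} {x : LL k} (hx : HDn k h d x) : HDn k h d (-x) :=
  ⟨(HD k _).neg_mem hx.1, (Dn k h).neg_mem hx.2⟩

theorem HDn_add {h : SS k} {d : Fin 4 → ℤ} {x y : LL k} (hx : HDn k h d x) (hy : HDn k h d y) :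
    HDn k h d (x + y) := ⟨(HD k _).add_mem hx.1 hy.1, (Dn k h).add_mem hx.2 hy.2⟩

theorem HDn_zero {h : SS k} {d : Fin 4 → ℤ} : HDn k h d 0 := ⟨(HD k _).zero_mem, (Dn k h).zero_mem⟩

/-- the product of the powers of the first forms -/
def th (d : Fin 4 → ℤ) : LL k := ∏ s, al k (lt k s 0) ^ d s

theorem th_update (d : Fin 4 → ℤ) (s : Fin 4) (n m : ℤ) (hm : m = n + 1) :
    th k (Function.update d s m) = th k (Function.update d s n) * al k (lt k s 0) := by
  subst hm
  unfold th
  rw [← Finset.mul_prod_erase Finset.univ _ (Finset.mem_univ s),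
    ← Finset.mul_prod_erase Finset.univ (fun t => al k (lt k t 0) ^ (Function.update d s n t))
      (Finset.mem_univ s), Function.update_self, Function.update_self,
    zpow_add_one₀ (al_ne_zero k (lt_ne_zero k s 0))]
  have h1 : ∏ t ∈ Finset.univ.erase s, al k (lt k t 0) ^ (Function.update d s (n + 1) t) =
      ∏ t ∈ Finset.univ.erase s, al k (lt k t 0) ^ (Function.update d s n t) := by
    refine Finset.prod_congr rfl fun t ht => ?_
    rw [Function.update_of_ne (Finset.ne_of_mem_erase ht), Function.update_of_ne (Finset.ne_of_mem_erase ht)]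
  rw [h1]; ring

theorem fw_w1 (s : Fin 4) : fw k (w1 s).1 * lt k s 0 = fw k w0.1 * lt k s 1 := by
  unfold fw
  rw [← Finset.mul_prod_erase Finset.univ (fun t => lt k t ((w1 s).1 t)) (Finset.mem_univ s),
    ← Finset.mul_prod_erase Finset.univ (fun t => lt k t (w0.1 t)) (Finset.mem_univ s)]
  have h1 : ∏ t ∈ Finset.univ.erase s, lt k t ((w1 s).1 t) =
      ∏ t ∈ Finset.univ.erase s, lt k t (w0.1 t) := by
    refine Finset.prod_congr rfl fun t ht => ?_
    have : (w1 s).1 t = w0.1 t := by
      change (Function.update (fun _ => (0 : Fin 5)) s 1 : Fin 4 → Fin 5) t = 0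
      rw [Function.update_of_ne (Finset.ne_of_mem_erase ht)]
    rw [this]
  have h2 : (w1 s).1 s = 1 := by
    change (Function.update (fun _ => (0 : Fin 5)) s 1 : Fin 4 → Fin 5) s = 1
    rw [Function.update_self]
  have h3 : w0.1 s = 0 := rfl
  rw [h1, h2, h3]; ring

theorem bet_val (s : Fin 4) : ((bet k s : K0 k) : LL k) = al k (lt k s 1) / al k (lt k s 0) := by
  unfold bet
  rw [aa_div]
  rw [div_eq_div_iff (al_ne_zero k (fw_ne_zero k w0.1)) (al_ne_zero k (lt_ne_zero k s 0))]
  rw [← map_mul, ← map_mul, fw_w1, mul_comm]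

/-- integer induction in one coordinate -/
theorem update_ind (Q : (Fin 4 → ℤ) → Prop) (s : Fin 4)
    (h1 : ∀ d n, Q (Function.update d s n) → Q (Function.update d s (n - 1)) →
      Q (Function.update d s (n - 2)))
    (h2 : ∀ d n, Q (Function.update d s (n - 1)) → Q (Function.update d s (n - 2)) →
      Q (Function.update d s n)) (d : Fin 4 → ℤ) (h0 : Q (Function.update d s 0))
    (hm : Q (Function.update d s (-1))) : Q d := by
  have key : ∀ n : ℤ, Q (Function.update d s n) ∧ Q (Function.update d s (n - 1)) := by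
    intro n
    induction n using Int.induction_on with
    | zero => exact ⟨h0, by simpa using hm⟩
    | succ n ih =>
      refine ⟨h2 d _ ?_ ?_, ?_⟩
      · simpa using ih.1
      · have : (n : ℤ) + 1 - 2 = n - 1 := by ring
        rw [this]; exact ih.2
      · simpa using ih.1
    | pred n ih =>
      refine ⟨ih.2, ?_⟩
      have h3 := h1 d _ ih.1 ih.2
      have : -(n : ℤ) - 1 - 1 = -(n : ℤ) - 2 := by ring
      rw [this]; exact h3
  have := (key (d s)).1
  rwa [Function.update_eq_self] at this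

/-- the values `-1, 0` suffice -/
theorem all_ind (Q : (Fin 4 → ℤ) → Prop)
    (h1 : ∀ s d n, Q (Function.update d s n) → Q (Function.update d s (n - 1)) →
      Q (Function.update d s (n - 2)))
    (h2 : ∀ s d n, Q (Function.update d s (n - 1)) → Q (Function.update d s (n - 2)) →
      Q (Function.update d s n)) (h0 : ∀ d : Fin 4 → ℤ, (∀ s, d s = -1 ∨ d s = 0) → Q d)
    (d : Fin 4 → ℤ) : Q d := by
  have key : ∀ T : Finset (Fin 4), ∀ d : Fin 4 → ℤ, (∀ s, s ∉ T → d s = -1 ∨ d s = 0) → Q d := by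
    intro T
    induction T using Finset.induction_on with
    | empty => intro d hd; exact h0 d fun s => hd s (Finset.notMem_empty s)
    | insert a T ha ih =>
      intro d hd
      refine update_ind Q a (h1 a) (h2 a) d (ih _ ?_) (ih _ ?_)
      · intro s hs
        by_cases h : s = a
        · subst h; right; simp
        · rw [Function.update_of_ne h]
          exact hd s (by rw [Finset.mem_insert, not_or]; exact ⟨h, hs⟩)
      · intro s hs
        by_cases h : s = a
        · subst h; left; simp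
        · rw [Function.update_of_ne h]
          exact hd s (by rw [Finset.mem_insert, not_or]; exact ⟨h, hs⟩)
  exact key Finset.univ d fun s hs => absurd (Finset.mem_univ s) hs

/-- the first map of the Koszul sequence -/
def kf (s : Fin 4) : (Fin 1 → K0 k) →ₗ[K0 k] (Fin 2 → K0 k) :=
  LinearMap.pi ![(bet k s) • LinearMap.proj 0, -LinearMap.proj 0]

/-- the second map of the Koszul sequence -/
def kg (s : Fin 4) : (Fin 2 → K0 k) →ₗ[K0 k] (Fin 1 → K0 k) :=
  LinearMap.pi ![LinearMap.proj 0 + (bet k s) • LinearMap.proj 1]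

theorem kf0 (s : Fin 4) (z : Fin 1 → K0 k) : kf k s z 0 = bet k s * z 0 := rfl
theorem kf1 (s : Fin 4) (z : Fin 1 → K0 k) : kf k s z 1 = -z 0 := rfl
theorem kg0 (s : Fin 4) (z : Fin 2 → K0 k) : kg k s z 0 = z 0 + bet k s * z 1 := rfl

theorem kf_inj (s : Fin 4) : Function.Injective (kf k s) := by
  intro x y hxy
  have h := congrFun hxy 1
  rw [kf1, kf1, neg_inj] at h
  funext i
  have hi : i = 0 := Subsingleton.elim _ _
  rw [hi]; exact h

theorem kg_surj (s : Fin 4) : Function.Surjective (kg k s) := by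
  intro w
  refine ⟨![w 0, 0], ?_⟩
  funext i
  have hi : i = 0 := Subsingleton.elim _ _
  rw [hi, kg0]; simp

theorem kg_ker (s : Fin 4) (y : Fin 2 → K0 k) : kg k s y = 0 ↔ ∃ x, kf k s x = y := by
  constructor
  · intro h
    have h0 := congrFun h 0
    rw [kg0] at h0
    refine ⟨fun _ => -y 1, ?_⟩
    funext i
    fin_cases i
    · change bet k s * (-y 1) = y 0
      have : y 0 = -(bet k s * y 1) := eq_neg_of_add_eq_zero_left h0
      rw [this]; ring
    · change -(-y 1) = y 1
      rw [neg_neg]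
  · rintro ⟨x, rfl⟩
    funext i
    have hi : i = 0 := Subsingleton.elim _ _
    rw [hi, kg0, kf0, kf1, Pi.zero_apply]
    ring

section lattices

variable {k}
variable (hLat : LatHom.{u}) (h2 : (2 : k) ≠ 0) (hU : UU k) (d : Fin 4 → ℤ) {σ : Finset GW}
  (hσ : σ.Nonempty)

include hLat h2 hσ

theorem lat1 (x : Fin 1 → K0 k) : x ∈ (ZL k hU (Fin 1) (fun _ => d)).lat σ ↔
    HDn k (fs k σ) d ((x 0 : LL k) * th k d) := by
  refine (hLat k h2 hU (Fin 1) (fun _ => d) σ hσ x).trans ?_
  constructor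
  · intro h; exact h 0
  · intro h e
    have he : e = 0 := Subsingleton.elim _ _
    rw [he]; exact h

theorem lat2 (x : Fin 2 → K0 k) : x ∈ (ZL k hU (Fin 2) (fun _ => d)).lat σ ↔
    HDn k (fs k σ) d ((x 0 : LL k) * th k d) ∧ HDn k (fs k σ) d ((x 1 : LL k) * th k d) := by
  refine (hLat k h2 hU (Fin 2) (fun _ => d) σ hσ x).trans ?_
  constructor
  · intro h; exact ⟨h 0, h 1⟩
  · intro h e
    fin_cases e
    · exact h.1
    · exact h.2

theorem kf_lat (s : Fin 4) (n : ℤ) (x : Fin 1 → K0 k) :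
    kf k s x ∈ (ZL k hU (Fin 2) (fun _ => Function.update d s (n - 1))).lat σ ↔
      x ∈ (ZL k hU (Fin 1) (fun _ => Function.update d s (n - 2))).lat σ := by
  have hA := al_ne_zero k (lt_ne_zero k s 0)
  have hB := al_ne_zero k (lt_ne_zero k s 1)
  have hth2 := th_update k d s (n - 2) (n - 1) (by ring)
  have hbv := bet_val k s
  rw [lat1 hLat h2 hU _ hσ, lat2 hLat h2 hU _ hσ]
  have e1 : ((kf k s x 0 : K0 k) : LL k) * th k (Function.update d s (n - 1)) =
      ((x 0 : LL k) * th k (Function.update d s (n - 2))) * al k (lt k s 1) := by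
    rw [kf0, hth2]
    change ((bet k s : K0 k) : LL k) * (x 0 : LL k) * _ = _
    rw [hbv]
    field_simp
  have e2 : ((kf k s x 1 : K0 k) : LL k) * th k (Function.update d s (n - 1)) =
      -(((x 0 : LL k) * th k (Function.update d s (n - 2))) * al k (lt k s 0)) := by
    rw [kf1, hth2]
    change (-(x 0 : LL k)) * _ = _
    ring
  rw [e1, e2]
  constructor
  · rintro ⟨h3, h4⟩
    have h4' := HDn_neg k h4
    rw [neg_neg] at h4'
    rcases ab_inv k s hσ with hc | hc
    · have := HDn_inv k (fs k σ) d s (n - 1) (n - 2) (by ring) 0 _ hc h4'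
      rwa [mul_assoc, mul_inv_cancel₀ hA, mul_one] at this
    · have := HDn_inv k (fs k σ) d s (n - 1) (n - 2) (by ring) 1 _ hc h3
      rwa [mul_assoc, mul_inv_cancel₀ hB, mul_one] at this
  · intro h
    exact ⟨HDn_lt k _ d s _ _ (by ring) 1 _ h, HDn_neg k (HDn_lt k _ d s _ _ (by ring) 0 _ h)⟩

theorem kg_lat (s : Fin 4) (n : ℤ) (w : Fin 1 → K0 k) :
    w ∈ (ZL k hU (Fin 1) (fun _ => Function.update d s n)).lat σ ↔
      ∃ y ∈ (ZL k hU (Fin 2) (fun _ => Function.update d s (n - 1))).lat σ, kg k s y = w := by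
  have hA := al_ne_zero k (lt_ne_zero k s 0)
  have hB := al_ne_zero k (lt_ne_zero k s 1)
  have hth1 := th_update k d s (n - 1) n (by ring)
  have hbv := bet_val k s
  rw [lat1 hLat h2 hU _ hσ]
  have e1 : ∀ y : Fin 2 → K0 k, ((kg k s y 0 : K0 k) : LL k) * th k (Function.update d s n) =
      ((y 0 : LL k) * th k (Function.update d s (n - 1))) * al k (lt k s 0) +
      ((y 1 : LL k) * th k (Function.update d s (n - 1))) * al k (lt k s 1) := by
    intro y
    rw [kg0, hth1]
    change ((y 0 : LL k) + ((bet k s : K0 k) : LL k) * (y 1 : LL k)) * _ = _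
    rw [hbv]
    field_simp
  constructor
  · intro h
    rcases ab_inv k s hσ with hc | hc
    · refine ⟨(![w 0, 0] : Fin 2 → K0 k), ?_, ?_⟩
      · refine (lat2 hLat h2 hU _ hσ _).mpr ⟨?_, ?_⟩
        · have := HDn_inv k (fs k σ) d s n (n - 1) (by ring) 0 _ hc h
          rw [hth1] at this
          change HDn k _ _ ((w 0 : LL k) * _)
          convert this using 1
          field_simp
        · change HDn k _ _ (((0 : K0 k) : LL k) * _)
          have : ((0 : K0 k) : LL k) * th k (Function.update d s (n - 1)) = 0 := by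
            simp
          rw [this]; exact HDn_zero k
      · funext i
        have hi : i = 0 := Subsingleton.elim _ _
        rw [hi, kg0]; simp
    · refine ⟨(![0, w 0 / bet k s] : Fin 2 → K0 k), ?_, ?_⟩
      · refine (lat2 hLat h2 hU _ hσ _).mpr ⟨?_, ?_⟩
        · change HDn k _ _ (((0 : K0 k) : LL k) * _)
          have : ((0 : K0 k) : LL k) * th k (Function.update d s (n - 1)) = 0 := by
            simp
          rw [this]; exact HDn_zero k
        · have := HDn_inv k (fs k σ) d s n (n - 1) (by ring) 1 _ hc h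
          rw [hth1] at this
          change HDn k _ _ (((w 0 : LL k) / ((bet k s : K0 k) : LL k)) * _)
          rw [hbv]
          convert this using 1
          field_simp
      · funext i
        have hi : i = 0 := Subsingleton.elim _ _
        rw [hi, kg0]
        change (0 : K0 k) + bet k s * (w 0 / bet k s) = w 0
        rw [mul_div_cancel₀ _ (bet_ne_zero k s), zero_add]
  · have key : ∀ y : Fin 2 → K0 k, kg k s y = w →
        (HDn k (fs k σ) (Function.update d s (n - 1)) ((y 0 : LL k) * th k (Function.update d s (n - 1))) ∧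
        HDn k (fs k σ) (Function.update d s (n - 1)) ((y 1 : LL k) * th k (Function.update d s (n - 1)))) →
        HDn k (fs k σ) (Function.update d s n) ((w 0 : LL k) * th k (Function.update d s n)) := by
      rintro y rfl hy'
      rw [e1]
      exact HDn_add k (HDn_lt k _ d s _ _ (by ring) 0 _ hy'.1) (HDn_lt k _ d s _ _ (by ring) 1 _ hy'.2)
    rintro ⟨y, hy, hyw⟩
    exact key y hyw ((lat2 hLat h2 hU _ hσ y).mp hy)

end lattices

/-- the Koszul sequence -/
theorem koszul_ses (hLat : LatHom.{u}) (h2 : (2 : k) ≠ 0) (hU : UU k) (s : Fin 4) (d : Fin 4 → ℤ) (n : ℤ) :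
    IsSES (ZL k hU (Fin 1) (fun _ => Function.update d s (n - 2)))
      (ZL k hU (Fin 2) (fun _ => Function.update d s (n - 1)))
      (ZL k hU (Fin 1) (fun _ => Function.update d s n)) := by
  refine ⟨kf k s, kg k s, ?_, ?_, ?_, ?_, kf_inj k s, kg_surj k s, kg_ker k s, ?_⟩
  · intro i
    change (kf k s) ∘ₗ (if i = 0 then LinearMap.id else 0) =
      (if i + 0 = 0 then LinearMap.id else 0) ∘ₗ (kf k s)
    rw [add_zero]
    split <;> simp
  · intro i
    change (kg k s) ∘ₗ (if i = 0 then LinearMap.id else 0) =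
      (if i + 0 = 0 then LinearMap.id else 0) ∘ₗ (kg k s)
    rw [add_zero]
    split <;> simp
  · change (kf k s) ∘ₗ 0 = 0 ∘ₗ (kf k s)
    simp
  · change (kg k s) ∘ₗ 0 = 0 ∘ₗ (kg k s)
    simp
  · intro σ hσ
    exact ⟨kf_lat hLat h2 hU d hσ s n, kg_lat hLat h2 hU d hσ s n⟩

/-- all line bundles are in the thick closure of the generator -/
theorem koszul : UUAll.{u} → InvThm.{u} → LatHom.{u} → LinesThick.{u} → LinesSummand.{u} → Koszul.{u} := by
  intro _ _ hLat hThick hSum k _ h2 hU d
  have hbase : ∀ d : Fin 4 → ℤ, (∀ s, d s = -1 ∨ d s = 0) →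
      Thick (EZ k hU) (ZL k hU (Fin 1) (fun _ => d)) := by
    intro d hd
    have h := hSum k (K0 k) (ZZ k) (EZ k hU) IE (fun e => uu k (tE e)) (fun e => uu_ne_zero k (tE e))
      (fun e => hU (tE e)) Thick.base
      (((decide (d 0 = -1), decide (d 1 = -1)), decide (d 2 = -1)), decide (d 3 = -1))
    have e : tE (((decide (d 0 = -1), decide (d 1 = -1)), decide (d 2 = -1)), decide (d 3 = -1)) = d := by
      funext s
      fin_cases s
      · rcases hd 0 with h | h <;> simp [tE, h]
      · rcases hd 1 with h | h <;> simp [tE, h]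
      · rcases hd 2 with h | h <;> simp [tE, h]
      · rcases hd 3 with h | h <;> simp [tE, h]
    simp only [e] at h
    exact h
  have hmid : ∀ d : Fin 4 → ℤ, Thick (EZ k hU) (ZL k hU (Fin 1) (fun _ => d)) →
      Thick (EZ k hU) (ZL k hU (Fin 2) (fun _ => d)) := by
    intro d hd
    exact hThick k (K0 k) (ZZ k) (EZ k hU) (Fin 2) (fun _ => uu k d) (fun _ => uu_ne_zero k d)
      (fun _ => hU d) (fun _ => hd)
  refine all_ind (fun d => Thick (EZ k hU) (ZL k hU (Fin 1) (fun _ => d))) ?_ ?_ hbase d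
  · intro s d n h0 h1
    exact Thick.ses₁ _ _ _ (koszul_ses k hLat h2 hU s d n) (hmid _ h1) h0
  · intro s d n h1 h2'
    exact Thick.ses₃ _ _ _ (koszul_ses k hLat h2 hU s d n) h2' (hmid _ h1)

end

end Pool.Agent.Helper99.RZ
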